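import Pool.Agent.Helper99.TD.C1
import Pool.Agent.Helper99.TD.C2
import Pool.Agent.Helper17.TD.C3
import Pool.Agent.Helper17.TD.C4
import Pool.Agent.Helper7.TW.B14

/-!
# The contribution of a surviving set of indices
-/

set_option autoImplicit false

namespace Pool.Agent.Helper54.PT

open Polynomial Finset Filter Topology Module

section Main

variable {ℓ : ℕ} [Fact ℓ.Prime] {σ : Type} [Fintype σ] [DecidableEq σ] {J : Type} [Fintype J]
  [DecidableEq J] {β γ : J → J → ZMod ℓ} {τ : (J → ZMod ℓ) →+ (J → Option σ → ZMod ℓ)}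
  {H : (Option σ → J → ZMod ℓ) → (Option σ → J → ZMod ℓ) → (Option σ → ZMod ℓ) → Prop}

theorem TDat.zero (hH : TDat β γ τ H) (κ : Option σ → ZMod ℓ) : H 0 0 κ := by
  have h := hH.tor 0 κ
  have h1 : (fun (s : Option σ) (j : J) => τ 0 j s) = 0 := by
    funext s j
    rw [map_zero]
    rfl
  have h2 : (fun (s : Option σ) (j : J) => κ s * (0 : J → ZMod ℓ) j) = 0 := by
    funext s j
    simp
  rwa [h1, h2] at h

theorem TDat.sub (hH : TDat β γ τ H) {b y b' y' : Option σ → J → ZMod ℓ} {κ : Option σ → ZMod ℓ}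
    (h : H b y κ) (h' : H b' y' κ) : H (b - b') (y - y') κ := by
  have hn : ∀ n : ℕ, H (n • b') (n • y') κ := by
    intro n
    induction n with
    | zero =>
      rw [zero_smul, zero_smul]
      exact hH.zero κ
    | succ n ih =>
      rw [succ_nsmul, succ_nsmul]
      exact hH.add _ _ _ _ _ ih h'
  have hℓ : 1 ≤ ℓ := (Fact.out : ℓ.Prime).one_lt.le
  have hneg : ∀ x : Option σ → J → ZMod ℓ, (ℓ - 1) • x = -x := by
    intro x
    funext s j
    change (ℓ - 1) • (x s j) = -(x s j)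
    rw [nsmul_eq_mul, Nat.cast_sub hℓ]
    simp
  have h1 := hH.add _ _ _ _ _ h (hn (ℓ - 1))
  rwa [hneg, hneg, ← sub_eq_add_neg, ← sub_eq_add_neg] at h1

/-- C5: the contribution of a surviving set of indices (uses C1, C2, C3, C4) -/
theorem contrib_UL (hH : TDat β γ τ H) {k : ℕ} (A : Submodule (ZMod ℓ) (Fin k → ZMod ℓ))
    (B : Fin k → Fin k → ZMod ℓ) (hB : ∀ i i', B i i' + B i' i = 0)
    (u₀ : (J × Fin k → ZMod ℓ) × (J × Fin k → ZMod ℓ)) (κ₀ : σ → ZMod ℓ) (n : ℕ) :
    ∑ b : Option σ → J × Fin k → ZMod ℓ, ∑ η : Option σ → J × Fin k → ZMod ℓ,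
      ∑ μ : Option σ → ZMod ℓ, hatH (Hk (HK k H) κ₀) b η μ *
        mt (thet (tauK k τ) b η μ) (UL γ (LAB A B) u₀) n = 1 / (ℓ : ℂ) ^ Fintype.card σ := by
  classical
  have hℓ0 : (ℓ : ℂ) ≠ 0 := by exact_mod_cast (Fact.out : ℓ.Prime).ne_zero
  set κ : Option σ → ZMod ℓ := kn κ₀ n with hκ
  set m := finrank (ZMod ℓ) A with hm
  have hmk : m ≤ k := by
    have := Submodule.finrank_le A
    rwa [Module.finrank_fintype_fun_eq_card, Fintype.card_fin] at this
  set b₀ : Option σ → J × Fin k → ZMod ℓ := fun s p => mapK k (tauS τ s) u₀.1 p with hb₀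
  set y₀ : Option σ → J × Fin k → ZMod ℓ := fun s p => κ s * u₀.1 p with hy₀
  have htor : HK k H b₀ y₀ κ := fun i => hH.tor (fun j => u₀.1 (j, i)) κ
  have hne : (UL γ (LAB A B) u₀).Nonempty := by
    refine ⟨u₀, mem_UL.2 fun j => ?_⟩
    rw [sub_self]
    have : rows γ (0 : (J × Fin k → ZMod ℓ) × (J × Fin k → ZMod ℓ)) j = 0 := by
      unfold rows
      simp
      rfl
    rw [this]
    exact Submodule.zero_mem _
  rw [contrib_locSum κ₀ _ hne n, ← hκ]
  -- the good pairs
  set P : (Option σ → J × Fin k → ZMod ℓ) × (Option σ → J × Fin k → ZMod ℓ) → Prop := fun x =>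
    ∀ s, (∀ j, (fun i => x.1 s (j, i) - b₀ s (j, i)) ∈ A) ∧
      ∀ j, (fun i => x.2 s (j, i) - y₀ s (j, i)) ∈ A with hP
  have h1 : ∀ x : (Option σ → J × Fin k → ZMod ℓ) × (Option σ → J × Fin k → ZMod ℓ),
      (if HK k H x.1 x.2 κ then ∏ s, locSum (tauS (tauK k τ) s) (UL γ (LAB A B) u₀) (x.1 s)
        (x.2 s) (κ s) else 0) = if HK k H x.1 x.2 κ ∧ P x then
          (ℓ : ℂ) ^ (Fintype.card J * (k - m) * (Fintype.card σ + 1)) else 0 := by
    intro x
    by_cases hx : HK k H x.1 x.2 κ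
    · rw [if_pos hx]
      by_cases hPx : P x
      · rw [if_pos ⟨hx, hPx⟩]
        have h2 : ∀ s, locSum (tauS (tauK k τ) s) (UL γ (LAB A B) u₀) (x.1 s) (x.2 s) (κ s) =
            (ℓ : ℂ) ^ (Fintype.card J * (k - m)) * ee (phs β (tauS τ s) B
              (fun i j => (rows γ u₀ j).2 i) (κ s) (fun p => x.1 s p - b₀ s p)
              (fun p => x.2 s p - y₀ s p)) := fun s =>
          (locSum_UL hH.sym hH.inv (tauS τ s) (fun v w => hH.self s v w) A B hB u₀ (x.1 s)
            (x.2 s) (κ s)).1 (hPx s)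
        have h3 : ∑ s, phs β (tauS τ s) B (fun i j => (rows γ u₀ j).2 i) (κ s)
            (fun p => x.1 s p - b₀ s p) (fun p => x.2 s p - y₀ s p) = 0 :=
          sum_phs hH B hB _ κ (fun s p => x.1 s p - b₀ s p) (fun s p => x.2 s p - y₀ s p)
            fun i => hH.sub (hx i) (htor i)
        rw [prod_congr rfl fun s _ => h2 s, prod_mul_distrib, prod_const, card_univ,
          Fintype.card_option, ← pow_mul, ← Helper7.TWB14.ee_sum, h3]
        simp [ee]
      · rw [if_neg fun h => hPx h.2]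
        obtain ⟨s, hs⟩ := not_forall.1 hPx
        exact prod_eq_zero (mem_univ s) ((locSum_UL hH.sym hH.inv (tauS τ s)
          (fun v w => hH.self s v w) A B hB u₀ (x.1 s) (x.2 s) (κ s)).2 hs)
    · rw [if_neg hx, if_neg fun h => hx h.1]
  have h4 : (univ.filter fun x : (Option σ → J × Fin k → ZMod ℓ) ×
      (Option σ → J × Fin k → ZMod ℓ) => HK k H x.1 x.2 κ ∧ P x).card =
        ℓ ^ (Fintype.card J * (Fintype.card σ + 1) * m) := by
    rw [← card_HK hH A κ, Nat.card_eq_fintype_card, Fintype.card_subtype]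
    refine card_bij (fun x _ => (x.1 - b₀, x.2 - y₀)) ?_ ?_ ?_
    · intro x hx
      rw [mem_filter] at hx ⊢
      exact ⟨mem_univ _, fun i => hH.sub (hx.2.1 i) (htor i), fun s j =>
        ⟨(hx.2.2 s).1 j, (hx.2.2 s).2 j⟩⟩
    · intro x _ x' _ h
      rw [Prod.mk.injEq] at h
      exact Prod.ext (sub_left_injective h.1) (sub_left_injective h.2)
    · intro x hx
      rw [mem_filter] at hx
      refine ⟨(x.1 + b₀, x.2 + y₀), ?_, ?_⟩
      · rw [mem_filter]
        refine ⟨mem_univ _, fun i => hH.add _ _ _ _ _ (hx.2.1 i) (htor i), fun s => ⟨fun j => ?_,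
          fun j => ?_⟩⟩
        · have h5 : (fun i => (x.1 + b₀) s (j, i) - b₀ s (j, i)) = fun i => x.1 s (j, i) := by
            funext i
            rw [Pi.add_apply, Pi.add_apply, add_sub_cancel_right]
          rw [h5]
          exact (hx.2.2 s j).1
        · have h5 : (fun i => (x.2 + y₀) s (j, i) - y₀ s (j, i)) = fun i => x.2 s (j, i) := by
            funext i
            rw [Pi.add_apply, Pi.add_apply, add_sub_cancel_right]
          rw [h5]
          exact (hx.2.2 s j).2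
      · rw [add_sub_cancel_right, add_sub_cancel_right]
  have h5 : ∑ x : (Option σ → J × Fin k → ZMod ℓ) × (Option σ → J × Fin k → ZMod ℓ),
      (if HK k H x.1 x.2 κ then ∏ s, locSum (tauS (tauK k τ) s) (UL γ (LAB A B) u₀) (x.1 s)
        (x.2 s) (κ s) else 0) = (ℓ : ℂ) ^ (Fintype.card J * k * (Fintype.card σ + 1)) := by
    rw [sum_congr rfl fun x _ => h1 x, ← sum_filter, sum_const, h4, nsmul_eq_mul, Nat.cast_pow,
      ← pow_add]
    congr 1
    have : k = m + (k - m) := by omega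
    conv_rhs => rw [this]
    ring
  rw [h5, Fintype.card_prod, Fintype.card_fin]
  have h6 : (Fintype.card J * k + 1) * (Fintype.card σ + 1) =
      Fintype.card J * k * (Fintype.card σ + 1) + (Fintype.card σ + 1) := by ring
  rw [h6, pow_add, pow_succ (ℓ : ℂ) (Fintype.card σ)]
  field_simp

end Main

end Pool.Agent.Helper54.PT
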