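import Pool.Agent.Helper17.TD.B1
import Pool.Agent.Helper17.TD.C6
import Pool.Agent.Helper17.TD.C7
import Pool.Agent.Helper54.TD.C5
import Pool.Agent.Helper99.TD.A1
import Pool.Agent.Helper9.TD.A2

/-!
# The main term and the moments
-/

set_option autoImplicit false

namespace Pool.Agent.Helper54.PT

open Polynomial Finset Filter Topology Module

section Main

variable {ℓ : ℕ} [Fact ℓ.Prime] {σ : Type} [Fintype σ] [DecidableEq σ] {J : Type} [Fintype J]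
  [DecidableEq J] {β γ : J → J → ZMod ℓ} {τ : (J → ZMod ℓ) →+ (J → Option σ → ZMod ℓ)}
  {H : (Option σ → J → ZMod ℓ) → (Option σ → J → ZMod ℓ) → (Option σ → ZMod ℓ) → Prop}

omit [DecidableEq σ] [DecidableEq J] in
/-- The contributions of the other sets of indices vanish. -/
theorem mt_zero (s : Option σ) (𝒰 : Finset ((J → ZMod ℓ) × (J → ZMod ℓ)))
    (hs : ¬ ∃ (η ω : J → ZMod ℓ) (c : ZMod ℓ), ∀ u ∈ 𝒰,
      ∑ j, u.2 j * τ u.1 j s = ∑ j, (η j * u.1 j + ω j * u.2 j) + c)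
    (b η : Option σ → J → ZMod ℓ) (μ : Option σ → ZMod ℓ) (n : ℕ) :
    mt (thet τ b η μ) 𝒰 n = 0 := by
  unfold mt
  rw [dif_neg]
  rintro ⟨c, hc⟩
  cases s with
  | some r =>
    refine hs ⟨η (some r), b (some r), μ (some r), fun u hu => ?_⟩
    have h4 := (hc u hu).1 r
    simp only [thet, sum_add_distrib, mul_sub, sum_sub_distrib] at h4 ⊢
    have h5 : ∑ j, u.2 j * b (some r) j = ∑ j, b (some r) j * u.2 j :=
      sum_congr rfl fun j _ => mul_comm _ _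
    rw [h5] at h4
    linear_combination -h4
  | none =>
    refine hs ⟨η none, b none, μ none - c, fun u hu => ?_⟩
    have h4 := (hc u hu).2
    simp only [thet, sum_add_distrib, mul_sub, sum_sub_distrib] at h4 ⊢
    have h5 : ∑ j, u.2 j * b none j = ∑ j, b none j * u.2 j :=
      sum_congr rfl fun j _ => mul_comm _ _
    rw [h5] at h4
    linear_combination -h4

/-- C8: the main term (uses B1, C5, C6, C7) -/
theorem main_termK [Nonempty J] (hH : TDat β γ τ H) (hG : GenL γ τ) (k : ℕ) (κ₀ : σ → ZMod ℓ)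
    (n : ℕ) :
    ∑ 𝒰 ∈ maxU (PhiJ (ℓ := ℓ) (J := J × Fin k)) (ℓ ^ Fintype.card (J × Fin k)),
      ∑ b : Option σ → J × Fin k → ZMod ℓ, ∑ η : Option σ → J × Fin k → ZMod ℓ,
        ∑ μ : Option σ → ZMod ℓ, hatH (Hk (HK k H) κ₀) b η μ *
          mt (thet (tauK k τ) b η μ) 𝒰 n =
      (((ℓ : ℝ) ^ (Fintype.card J * k) * (NL ℓ k / (ℓ : ℝ) ^ Fintype.card σ) : ℝ) : ℂ) := by
  classical
  set P : Finset ((J × Fin k → ZMod ℓ) × (J × Fin k → ZMod ℓ)) → Prop :=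
    fun 𝒰 => ∃ L u₀, IsLk L ∧ 𝒰 = UL γ L u₀ with hP
  have h1 : ∀ 𝒰 ∈ maxU (PhiJ (ℓ := ℓ) (J := J × Fin k)) (ℓ ^ Fintype.card (J × Fin k)),
      ∑ b : Option σ → J × Fin k → ZMod ℓ, ∑ η : Option σ → J × Fin k → ZMod ℓ,
        ∑ μ : Option σ → ZMod ℓ, hatH (Hk (HK k H) κ₀) b η μ *
          mt (thet (tauK k τ) b η μ) 𝒰 n = if P 𝒰 then 1 / (ℓ : ℂ) ^ Fintype.card σ else 0 := by
    intro 𝒰 h𝒰
    have h2 : Unl PhiJ 𝒰 ∧ 𝒰.card = ℓ ^ Fintype.card (J × Fin k) := by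
      rw [maxU, mem_filter] at h𝒰
      exact h𝒰.2
    by_cases h : P 𝒰
    · rw [if_pos h]
      obtain ⟨L, u₀, hL, rfl⟩ := h
      obtain ⟨A, B, hB, rfl⟩ := exists_AB L hL
      exact contrib_UL hH A B hB u₀ κ₀ n
    · rw [if_neg h]
      obtain ⟨s, hs⟩ : ∃ s, ¬ ∃ (η ω : J × Fin k → ZMod ℓ) (c : ZMod ℓ), ∀ u ∈ 𝒰,
          ∑ p, u.2 p * tauK k τ u.1 p s = ∑ p, (η p * u.1 p + ω p * u.2 p) + c := by
        by_contra h3
        push Not at h3
        exact h (hG k 𝒰 h2.1 h2.2 h3)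
      simp only [mt_zero s 𝒰 hs, mul_zero, sum_const_zero]
  rw [sum_congr rfl h1, ← sum_filter, sum_const, nsmul_eq_mul]
  have h3 : ((maxU (PhiJ (ℓ := ℓ) (J := J × Fin k)) (ℓ ^ Fintype.card (J × Fin k))).filter P).card =
      NL ℓ k * ℓ ^ (Fintype.card J * k) := by
    rw [← card_survivors hH.sym hH.inv hH.alt k, Nat.card_eq_fintype_card, Fintype.card_subtype]
    congr 1
    ext 𝒰
    rw [mem_filter, mem_filter]
    constructor
    · rintro ⟨_, h⟩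
      exact ⟨mem_univ _, h⟩
    · rintro ⟨_, h⟩
      refine ⟨?_, h⟩
      obtain ⟨L, u₀, hL, rfl⟩ := h
      exact UL_mem_maxU hH.sym hH.inv hH.alt L hL u₀
  rw [h3]
  push_cast
  ring

/-- C9: the moments (uses A1, A2, C8) -/
theorem moments_GD {q : ℕ} (X : PData ℓ σ) (hX : X.Inputs q) [Nonempty J] (hH : TDat β γ τ H)
    (hG : GenL γ τ) (k : ℕ) (κ₀ : σ → ZMod ℓ) (ε : ℝ) (hε : 0 < ε) :
    ∀ᶠ n : ℕ in atTop,
      |(∑ D ∈ (X.sq n).filter (fun D => ∀ r, kap X D (some r) = κ₀ r),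
        ((GD X τ H D).card : ℝ) ^ k) -
          (ℓ : ℝ) ^ (Fintype.card J * k) * (NL ℓ k / (ℓ : ℝ) ^ Fintype.card σ) *
            (X.sq n).card| ≤ ε * (X.sq n).card := by
  filter_upwards [moment_exact X (tauK k τ) (Hk (HK k H) κ₀) hX _
    (fun n => main_termK hH hG k κ₀ n) ε hε] with n hn
  have h1 : ∑ D ∈ X.sq n, ((GD X (tauK k τ) (Hk (HK k H) κ₀) D).card : ℝ) =
      ∑ D ∈ (X.sq n).filter (fun D => ∀ r, kap X D (some r) = κ₀ r),
        ((GD X τ H D).card : ℝ) ^ k := by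
    rw [sum_filter]
    refine sum_congr rfl fun D _ => ?_
    split_ifs with h
    · rw [(card_GD_tauK X τ H k κ₀ D).1 h, Nat.cast_pow]
    · rw [(card_GD_tauK X τ H k κ₀ D).2 h, Nat.cast_zero]
  rw [← h1]
  exact hn

end Main

end Pool.Agent.Helper54.PT
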