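import Pool.Agent.Helper54.TD.C89
import Pool.Agent.Helper14.TD.E6
import Pool.Agent.Helper14.TD.E7
import Pool.Agent.Helper17.TE.A2

/-!
# The proportion of trivial formal Selmer groups
-/

set_option autoImplicit false

namespace Pool.Agent.Helper54.PT

open Polynomial Finset Filter Topology Module

section Class

variable {ℓ : ℕ} [Fact ℓ.Prime] {σ : Type} [Fintype σ] [DecidableEq σ] {J : Type} [Fintype J]
  [DecidableEq J] {β γ : J → J → ZMod ℓ} {τ : (J → ZMod ℓ) →+ (J → Option σ → ZMod ℓ)}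
  {H : (Option σ → J → ZMod ℓ) → (Option σ → J → ZMod ℓ) → (Option σ → ZMod ℓ) → Prop}

open Classical in
/-- The number of twists in a class with trivial formal Selmer group. -/
theorem class_bound {q : ℕ} (X : PData ℓ σ) (hX : X.Inputs q) [Nonempty J]
    (hH : TDat β γ τ H) (hG : GenL γ τ)
    (hsub : ∀ D : Finset X.P, ∀ x ∈ GD X τ H D, ∀ y ∈ GD X τ H D, x + y ∈ GD X τ H D)
    (htor : ∀ (D : Finset X.P) (v : J → ZMod ℓ), tor X τ D v ∈ GD X τ H D)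
    (κ₀ : σ → ZMod ℓ) (φ : ℕ → ℕ) (hφ : Tendsto φ atTop atTop) (f : ℝ[X])
    (hf : ∀ m, ∀ D ∈ X.sq (φ m), (∀ r, kap X D (some r) = κ₀ r) → ∀ s : ℕ,
      (GD X τ H D).card = ℓ ^ (Fintype.card J + s) → f.eval ((ℓ : ℝ) ^ s) ≤ if s = 0 then 1 else 0)
    (ε : ℝ) (hε : 0 < ε) :
    ∀ᶠ m : ℕ in atTop, (1 / (ℓ : ℝ) ^ Fintype.card σ * Lam (fun k => (NL ℓ k : ℝ)) f - ε) *
        (X.sq (φ m)).card ≤
      ((X.sq (φ m)).filter fun D => (∀ r, kap X D (some r) = κ₀ r) ∧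
        ∀ x ∈ GD X τ H D, ∃ v, x = tor X τ D v).card := by
  have hp : ℓ.Prime := Fact.out
  have hℓ1 : 1 < ℓ := hp.one_lt
  have hℓ0 : (0 : ℝ) < ℓ := by exact_mod_cast hp.pos
  set d := Fintype.card J with hd
  set sD : Finset X.P → ℕ := fun D => Nat.log ℓ (GD X τ H D).card - d with hsD
  have hs : ∀ D : Finset X.P, ∀ s : ℕ, (GD X τ H D).card = ℓ ^ (d + s) → sD D = s := by
    intro D s h
    rw [hsD]
    simp only
    rw [h, Nat.log_pow hℓ1]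
    omega
  have hne : ∀ n : ℕ, 1 ≤ n → ∀ D ∈ X.sq n, D.Nonempty := by
    intro n hn D hD
    rw [X.mem_sq] at hD
    rw [Finset.nonempty_iff_ne_empty]
    rintro rfl
    simp [PData.dg] at hD
    omega
  have hcard : ∀ n : ℕ, 1 ≤ n → ∀ D ∈ X.sq n, (GD X τ H D).card = ℓ ^ (d + sD D) ∧
      (sD D = 0 → ∀ x ∈ GD X τ H D, ∃ v, x = tor X τ D v) := by
    intro n hn D hD
    obtain ⟨s, h1, h2⟩ := card_GD_eq X τ H D (hne n hn D hD) (hsub D) (htor D)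
    rw [hs D s h1]
    exact ⟨h1, h2⟩
  set C : ℕ → Finset (Finset X.P) := fun m =>
    (X.sq (φ m)).filter fun D => ∀ r, kap X D (some r) = κ₀ r with hC
  have hφ1 : ∀ᶠ m : ℕ in atTop, 1 ≤ φ m := hφ.eventually (eventually_ge_atTop 1)
  have key := prop_of_moments (fun m => X.sq (φ m)) C (fun _ D => sD D) (ℓ : ℝ)
    (1 / (ℓ : ℝ) ^ Fintype.card σ) (fun k => (NL ℓ k : ℝ)) (fun k δ hδ => ?_) f ?_ ε hε
  · filter_upwards [key, hφ1] with m hm h1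
    refine hm.trans ?_
    rw [Nat.cast_le]
    refine card_le_card fun D hD => ?_
    rw [mem_filter] at hD
    have hD1 := mem_filter.1 hD.1
    rw [mem_filter]
    exact ⟨hD1.1, hD1.2, (hcard _ h1 D hD1.1).2 hD.2⟩
  · have hpos : (0 : ℝ) < (ℓ : ℝ) ^ (d * k) := by positivity
    have h2 := hφ.eventually (moments_GD X hX hH hG k κ₀ (δ * (ℓ : ℝ) ^ (d * k)) (by positivity))
    filter_upwards [h2, hφ1] with m hm h1
    have h3 : ∑ D ∈ (X.sq (φ m)).filter (fun D => ∀ r, kap X D (some r) = κ₀ r),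
        ((GD X τ H D).card : ℝ) ^ k = (ℓ : ℝ) ^ (d * k) * ∑ D ∈ C m, ((ℓ : ℝ) ^ sD D) ^ k := by
      rw [mul_sum]
      refine sum_congr (by rw [hC]) fun D hD => ?_
      rw [(hcard _ h1 D (mem_filter.1 hD).1).1, Nat.cast_pow, pow_add, mul_pow, ← pow_mul]
    rw [h3] at hm
    have h4 : (ℓ : ℝ) ^ (d * k) * ∑ D ∈ C m, ((ℓ : ℝ) ^ sD D) ^ k -
        (ℓ : ℝ) ^ (d * k) * (NL ℓ k / (ℓ : ℝ) ^ Fintype.card σ) * (X.sq (φ m)).card =
        (ℓ : ℝ) ^ (d * k) * (∑ D ∈ C m, ((ℓ : ℝ) ^ sD D) ^ k -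
          1 / (ℓ : ℝ) ^ Fintype.card σ * NL ℓ k * (X.sq (φ m)).card) := by
      ring
    rw [h4, abs_mul, abs_of_pos hpos] at hm
    have h5 : (ℓ : ℝ) ^ (d * k) * |∑ D ∈ C m, ((ℓ : ℝ) ^ sD D) ^ k -
          1 / (ℓ : ℝ) ^ Fintype.card σ * NL ℓ k * (X.sq (φ m)).card| ≤
        (ℓ : ℝ) ^ (d * k) * (δ * (X.sq (φ m)).card) := by
      refine hm.trans (le_of_eq ?_)
      ring
    exact le_of_mul_le_mul_left h5 hpos
  · filter_upwards [hφ1] with m h1 D hD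
    rw [hC, mem_filter] at hD
    exact hf m D hD.1 hD.2 _ (hcard _ h1 D hD.1).1

end Class

end Pool.Agent.Helper54.PT
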