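import Pool.Agent.Helper9.TD.D123
import Pool.Agent.Helper9.TD.D4
import Pool.Agent.Helper89.TD.D5
import Pool.Agent.Helper32.TW.B12B13

/-!
# The classification of the surviving sets of indices
-/

set_option autoImplicit false

namespace Pool.Agent.Helper54.PT

open Polynomial Finset Filter Topology Module

section Rows

variable {ℓ : ℕ} {J : Type} [Fintype J]

/-- `rows` as a linear map. -/
def rowsL (k : ℕ) (γ : J → J → ZMod ℓ) : ((J × Fin k → ZMod ℓ) × (J × Fin k → ZMod ℓ))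
    →ₗ[ZMod ℓ] (J → (Fin k → ZMod ℓ) × (Fin k → ZMod ℓ)) where
  toFun u := rows γ u
  map_add' u u' := by
    funext j
    refine Prod.ext rfl ?_
    funext i
    change ∑ j', γ j j' * (u + u').2 (j', i) = ∑ j', γ j j' * u.2 (j', i) +
      ∑ j', γ j j' * u'.2 (j', i)
    rw [← sum_add_distrib]
    refine sum_congr rfl fun j' _ => ?_
    rw [Prod.snd_add, Pi.add_apply]
    ring
  map_smul' c u := by
    funext j
    refine Prod.ext rfl ?_
    funext i
    change ∑ j', γ j j' * (c • u).2 (j', i) = c * ∑ j', γ j j' * u.2 (j', i)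
    rw [mul_sum]
    refine sum_congr rfl fun j' _ => ?_
    rw [Prod.smul_snd, Pi.smul_apply, smul_eq_mul]
    ring

theorem rowsL_apply (k : ℕ) (γ : J → J → ZMod ℓ)
    (u : (J × Fin k → ZMod ℓ) × (J × Fin k → ZMod ℓ)) : rowsL k γ u = rows γ u := rfl

theorem rowsL_injective [DecidableEq J] {β γ : J → J → ZMod ℓ}
    (hβγ : ∀ i k, ∑ j, β i j * γ j k = if i = k then 1 else 0) (k : ℕ) :
    Function.Injective (rowsL k γ) := by
  rw [injective_iff_map_eq_zero]
  intro u hu
  have h1 : ∀ j i, u.1 (j, i) = 0 := fun j i => congrFun (congrArg Prod.fst (congrFun hu j)) i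
  have h2 : ∀ j i, ∑ j', γ j j' * u.2 (j', i) = 0 := fun j i =>
    congrFun (congrArg Prod.snd (congrFun hu j)) i
  refine Prod.ext (funext fun p => h1 p.1 p.2) (funext fun p => ?_)
  obtain ⟨j, i⟩ := p
  have h3 : ∑ j'', β j j'' * ∑ j', γ j'' j' * u.2 (j', i) = u.2 (j, i) := by
    simp only [mul_sum]
    rw [sum_comm]
    have h4 : ∀ j', ∑ j'', β j j'' * (γ j'' j' * u.2 (j', i)) =
        (if j = j' then 1 else 0) * u.2 (j', i) := by
      intro j'
      rw [← hβγ j j', sum_mul]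
      exact sum_congr rfl fun j'' _ => by ring
    rw [sum_congr rfl fun j' _ => h4 j']
    simp
  rw [← h3]
  simp only [h2, mul_zero, sum_const_zero, Prod.snd_zero, Pi.zero_apply]

end Rows

theorem mul_inv_of {ℓ : ℕ} [Fact ℓ.Prime] {J : Type} [Fintype J] [DecidableEq J]
    {β γ : J → J → ZMod ℓ}
    (hinv : ∀ i k, ∑ j, γ i j * β j k = if i = k then 1 else 0) (i k : J) :
    ∑ j, β i j * γ j k = if i = k then 1 else 0 := by
  have h1 : (Matrix.of γ) * (Matrix.of β) = 1 := by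
    ext i k
    rw [Matrix.mul_apply, Matrix.one_apply]
    exact hinv i k
  have h2 := mul_eq_one_comm.1 h1
  have h3 := congrFun (congrFun h2 i) k
  rw [Matrix.mul_apply, Matrix.one_apply] at h3
  exact h3

section Curve

variable {ℓ : ℕ} [Fact ℓ.Prime] {ι : Type} [Fintype ι] [DecidableEq ι] {σ : Type} [Fintype σ]
  [DecidableEq σ] {a : ι → ℕ} {i₀ : ι} {A : ι → ι → Option σ → ZMod ℓ}

/-- D6: the classification (uses D2, D4, D5) -/
theorem genL_tauG (ha : ∀ i, ¬ ℓ ∣ a i) (hs : ¬ ℓ ∣ ∑ i, a i)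
    (hA : ∀ i j s, A i j s = A j i s) (hind : IndA A) :
    GenL (gammaG a i₀) (tauG a i₀ A) := by
  intro k 𝒰 hU hcard h
  obtain ⟨u₀, W, hW1, hW2⟩ := coset_of_unl 𝒰 hU hcard
  have hinj := rowsL_injective (β := betaG a i₀) (γ := gammaG a i₀)
    (mul_inv_of (gammaG_inv ha hs)) k
  obtain ⟨L, hL, hL2⟩ := rows_lag ha hs k (W.map (rowsL k (gammaG a i₀)))
    (by
      rw [← (Submodule.equivMapOfInjective _ hinj W).finrank_eq, hW1, Fintype.card_prod,
        Fintype.card_fin])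
    (by
      rintro _ ⟨x, hx, rfl⟩ _ ⟨y, hy, rfl⟩ i m him
      exact polar_zero ha hs hA hind k 𝒰 hU u₀ W hW2 h x y hx hy i m him)
  refine ⟨L, u₀, hL, ?_⟩
  ext u
  rw [hW2, mem_UL]
  constructor
  · intro hu
    exact (hL2 _).1 ⟨u - u₀, hu, rfl⟩
  · intro hu
    obtain ⟨x, hx, hx2⟩ := (hL2 (rows (gammaG a i₀) (u - u₀))).2 hu
    have : x = u - u₀ := hinj hx2
    rwa [← this]

end Curve

end Pool.Agent.Helper54.PT
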