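import Pool.Agent.Helper54.PT.DefsG

/-!
# The higher moments of the formal Selmer groups: definitions
-/

set_option autoImplicit false

namespace Pool.Agent.Helper54.PT

open Polynomial Finset

/-- The symmetric form on `F ^ k × F ^ k`. -/
def phiK {ℓ k : ℕ} (z z' : (Fin k → ZMod ℓ) × (Fin k → ZMod ℓ)) : ZMod ℓ :=
  ∑ i, (z.1 i * z'.2 i + z'.1 i * z.2 i)

section Abstract

variable {ℓ : ℕ} {σ J : Type}

/-- The bilinear form with matrix `β`. -/
def bt [Fintype J] (β : J → J → ZMod ℓ) (x y : J → ZMod ℓ) : ZMod ℓ :=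
  ∑ i, ∑ j, β i j * x i * y j

/-- The `k`-fold copy of `τ`. -/
def tauK (k : ℕ) (τ : (J → ZMod ℓ) →+ (J → Option σ → ZMod ℓ)) :
    (J × Fin k → ZMod ℓ) →+ (J × Fin k → Option σ → ZMod ℓ) where
  toFun v p s := τ (fun j => v (j, p.2)) p.1 s
  map_zero' := by
    funext p s
    exact congrFun (congrFun (map_zero τ) p.1) s
  map_add' v v' := by
    funext p s
    exact congrFun (congrFun (map_add τ (fun j => v (j, p.2)) (fun j => v' (j, p.2))) p.1) s

/-- The `k`-fold copy of the conditions `H`. -/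
def HK (k : ℕ) (H : (Option σ → J → ZMod ℓ) → (Option σ → J → ZMod ℓ) →
    (Option σ → ZMod ℓ) → Prop) (b y : Option σ → J × Fin k → ZMod ℓ) (κ : Option σ → ZMod ℓ) :
    Prop :=
  ∀ i, H (fun s j => b s (j, i)) (fun s j => y s (j, i)) κ

/-- The maximal isotropic subspaces of `F ^ k × F ^ k`. -/
def IsLk {k : ℕ} (L : Submodule (ZMod ℓ) ((Fin k → ZMod ℓ) × (Fin k → ZMod ℓ))) : Prop :=
  Module.finrank (ZMod ℓ) L = k ∧ ∀ z ∈ L, ∀ z' ∈ L, phiK z z' = 0

/-- The subspace attached to `A` and the matrix `B`. -/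
def LAB {k : ℕ} (A : Submodule (ZMod ℓ) (Fin k → ZMod ℓ)) (B : Fin k → Fin k → ZMod ℓ) :
    Submodule (ZMod ℓ) ((Fin k → ZMod ℓ) × (Fin k → ZMod ℓ)) where
  carrier := {z | z.1 ∈ A ∧ ∀ a ∈ A, ∑ i, a i * (z.2 i - ∑ i', B i i' * z.1 i') = 0}
  zero_mem' := ⟨A.zero_mem, fun a _ => by simp⟩
  add_mem' {z z'} hz hz' := ⟨A.add_mem hz.1 hz'.1, fun a ha => by
    have h : ∑ i, a i * ((z + z').2 i - ∑ i', B i i' * (z + z').1 i') =
        ∑ i, a i * (z.2 i - ∑ i', B i i' * z.1 i') +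
          ∑ i, a i * (z'.2 i - ∑ i', B i i' * z'.1 i') := by
      rw [← sum_add_distrib]
      refine sum_congr rfl fun i _ => ?_
      simp only [Prod.fst_add, Prod.snd_add, Pi.add_apply, mul_add, sum_add_distrib]
      ring
    rw [h, hz.2 a ha, hz'.2 a ha, add_zero]⟩
  smul_mem' c z hz := ⟨A.smul_mem c hz.1, fun a ha => by
    have h : ∑ i, a i * ((c • z).2 i - ∑ i', B i i' * (c • z).1 i') =
        c * ∑ i, a i * (z.2 i - ∑ i', B i i' * z.1 i') := by
      rw [mul_sum]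
      refine sum_congr rfl fun i _ => ?_
      have h' : ∑ i', B i i' * (c • z).1 i' = c * ∑ i', B i i' * z.1 i' := by
        rw [mul_sum]
        refine sum_congr rfl fun i' _ => ?_
        simp only [Prod.smul_fst, Pi.smul_apply, smul_eq_mul]
        ring
      rw [h']
      simp only [Prod.smul_snd, Pi.smul_apply, smul_eq_mul]
      ring
    rw [h, hz.2 a ha, mul_zero]⟩

/-- The rows of an index, in the coordinates given by `γ`. -/
def rows [Fintype J] {k : ℕ} (γ : J → J → ZMod ℓ)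
    (u : (J × Fin k → ZMod ℓ) × (J × Fin k → ZMod ℓ)) (j : J) :
    (Fin k → ZMod ℓ) × (Fin k → ZMod ℓ) :=
  (fun i => u.1 (j, i), fun i => ∑ j', γ j j' * u.2 (j', i))

open Classical in
/-- The set of indices attached to the subspace `L` and the index `u₀`. -/
noncomputable def UL [NeZero ℓ] [Fintype J] {k : ℕ} (γ : J → J → ZMod ℓ)
    (L : Submodule (ZMod ℓ) ((Fin k → ZMod ℓ) × (Fin k → ZMod ℓ)))
    (u₀ : (J × Fin k → ZMod ℓ) × (J × Fin k → ZMod ℓ)) :
    Finset ((J × Fin k → ZMod ℓ) × (J × Fin k → ZMod ℓ)) :=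
  univ.filter fun u => ∀ j, rows γ (u - u₀) j ∈ L

theorem mem_UL [NeZero ℓ] [Fintype J] {k : ℕ} {γ : J → J → ZMod ℓ}
    {L : Submodule (ZMod ℓ) ((Fin k → ZMod ℓ) × (Fin k → ZMod ℓ))}
    {u₀ u : (J × Fin k → ZMod ℓ) × (J × Fin k → ZMod ℓ)} :
    u ∈ UL γ L u₀ ↔ ∀ j, rows γ (u - u₀) j ∈ L := by
  classical
  rw [UL, mem_filter]
  exact ⟨fun h => h.2, fun h => ⟨mem_univ _, h⟩⟩

/-- The map `τ` at the place `s`. -/
def tauS (τ : (J → ZMod ℓ) →+ (J → Option σ → ZMod ℓ)) (s : Option σ) :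
    (J → ZMod ℓ) →+ (J → ZMod ℓ) where
  toFun v j := τ v j s
  map_zero' := by
    funext j
    exact congrFun (congrFun (map_zero τ) j) s
  map_add' v v' := by
    funext j
    exact congrFun (congrFun (map_add τ v v') j) s

/-- The `k`-fold copy of a map. -/
def mapK (k : ℕ) (T : (J → ZMod ℓ) →+ (J → ZMod ℓ)) :
    (J × Fin k → ZMod ℓ) →+ (J × Fin k → ZMod ℓ) where
  toFun v p := T (fun j => v (j, p.2)) p.1
  map_zero' := by
    funext p
    exact congrFun (map_zero T) p.1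
  map_add' v v' := by
    funext p
    exact congrFun (map_add T (fun j => v (j, p.2)) (fun j => v' (j, p.2))) p.1

open Classical in
/-- The local factor of the contribution of a set of indices. -/
noncomputable def locSum [NeZero ℓ] [Fintype J] (T : (J → ZMod ℓ) →+ (J → ZMod ℓ))
    (𝒰 : Finset ((J → ZMod ℓ) × (J → ZMod ℓ))) (b y : J → ZMod ℓ) (κ : ZMod ℓ) : ℂ :=
  ∑ x : (J → ZMod ℓ) × ZMod ℓ,
    if (∀ u ∈ 𝒰, ∑ j, (u.2 j * (b j - T u.1 j) + x.1 j * u.1 j) + x.2 = 0) then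
      ee (-(∑ j, x.1 j * y j + x.2 * κ)) else 0

/-- The phase of the local factor. -/
def phs [Fintype J] {k : ℕ} (β : J → J → ZMod ℓ) (T : (J → ZMod ℓ) →+ (J → ZMod ℓ))
    (B : Fin k → Fin k → ZMod ℓ) (w : Fin k → J → ZMod ℓ) (κ : ZMod ℓ)
    (b y : J × Fin k → ZMod ℓ) : ZMod ℓ :=
  -∑ i, bt β (T (w i)) (fun j => y (j, i)) + κ * ∑ i, bt β (w i) (fun j => b (j, i)) -
    ∑ i, ∑ i', B i i' * bt β (fun j => b (j, i')) (fun j => y (j, i)) -
      ∑ i, B i i * bt β (fun j => y (j, i)) (T fun j => y (j, i))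

/-- The class of the twists of degree `n` with class `κ₀` at the bad primes. -/
def kn (κ₀ : σ → ZMod ℓ) (n : ℕ) : Option σ → ZMod ℓ
  | some r => κ₀ r
  | none => n

/-- The hypotheses on the local conditions: `β` and `γ` are inverse symmetric matrices, the maps
`τ · s` are self-adjoint for the form `β`, and for each class `κ` the local conditions form a
maximal isotropic subspace which contains the torsion. -/
structure TDat [NeZero ℓ] [Fintype σ] [DecidableEq σ] [Fintype J] [DecidableEq J]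
    (β γ : J → J → ZMod ℓ) (τ : (J → ZMod ℓ) →+ (J → Option σ → ZMod ℓ))
    (H : (Option σ → J → ZMod ℓ) → (Option σ → J → ZMod ℓ) → (Option σ → ZMod ℓ) → Prop) :
    Prop where
  sym : ∀ i j, β i j = β j i
  inv : ∀ i k, ∑ j, γ i j * β j k = if i = k then 1 else 0
  alt : ∀ c : ZMod ℓ, c + c = 0 → ∀ i, c * β i i = 0
  self : ∀ s v w, bt β w (fun j => τ v j s) = bt β v (fun j => τ w j s)
  add : ∀ b y b' y' κ, H b y κ → H b' y' κ → H (b + b') (y + y') κ
  card : ∀ κ, Nat.card {x : (Option σ → J → ZMod ℓ) × (Option σ → J → ZMod ℓ) //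
    H x.1 x.2 κ} = ℓ ^ (Fintype.card J * (Fintype.card σ + 1))
  tor : ∀ (v : J → ZMod ℓ) κ, H (fun s j => τ v j s) (fun s j => κ s * v j) κ
  iso : ∀ b y b' y' κ, H b y κ → H b' y' κ →
    ∑ s, bt β (b s) (y' s) = ∑ s, bt β (b' s) (y s)
  quad : ∀ c : ZMod ℓ, c + c = 0 → ∀ b y κ, H b y κ →
    c * ∑ s, bt β (b s) (y s) = c * ∑ s, bt β (y s) (fun j => τ (y s) j s)

/-- The classification of the maximal unlinked sets on which the functions attached to `τ` are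
affine. -/
def GenL [NeZero ℓ] [Fintype J] (γ : J → J → ZMod ℓ)
    (τ : (J → ZMod ℓ) →+ (J → Option σ → ZMod ℓ)) : Prop :=
  ∀ (k : ℕ) (𝒰 : Finset ((J × Fin k → ZMod ℓ) × (J × Fin k → ZMod ℓ))), Unl PhiJ 𝒰 →
    𝒰.card = ℓ ^ Fintype.card (J × Fin k) →
    (∀ s, ∃ (η ω : J × Fin k → ZMod ℓ) (c : ZMod ℓ), ∀ u ∈ 𝒰,
      ∑ p, u.2 p * tauK k τ u.1 p s = ∑ p, (η p * u.1 p + ω p * u.2 p) + c) →
    ∃ L u₀, IsLk L ∧ 𝒰 = UL γ L u₀

end Abstract

/-! ### Counting -/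

/-- The number of subspaces of dimension `m` of `F ^ k`. -/
noncomputable def nsub (ℓ k m : ℕ) : ℕ :=
  Nat.card {A : Submodule (ZMod ℓ) (Fin k → ZMod ℓ) // Module.finrank (ZMod ℓ) A = m}

/-- The number of antisymmetric matrices. -/
noncomputable def gk (ℓ m : ℕ) : ℕ :=
  Nat.card {S : Fin m → Fin m → ZMod ℓ // ∀ i j, S i j + S j i = 0}

/-- The number of maximal isotropic subspaces. -/
noncomputable def NL (ℓ k : ℕ) : ℕ :=
  Nat.card {L : Submodule (ZMod ℓ) ((Fin k → ZMod ℓ) × (Fin k → ZMod ℓ)) // IsLk L}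

/-- The linear functional on polynomials with given moments. -/
noncomputable def Lam (N : ℕ → ℝ) (p : ℝ[X]) : ℝ := p.sum fun k c => c * N k

/-- The polynomial `(X - 1) (X - Q) ... (X - Q ^ (j - 1))`. -/
noncomputable def Pj (Q : ℝ) (j : ℕ) : ℝ[X] := ∏ i ∈ range j, (X - C (Q ^ i))

/-- The polynomial `∏ (Q ^ i - X) / (Q ^ i - 1)`, with `1 ≤ i ≤ K`. -/
noncomputable def fK (Q : ℝ) (K : ℕ) : ℝ[X] :=
  ∏ i ∈ range K, C ((Q ^ (i + 1) - 1)⁻¹) * (C (Q ^ (i + 1)) - X)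

/-! ### The data of the curve -/

section Data

variable {ℓ : ℕ} {ι : Type} [Fintype ι] [DecidableEq ι] (a : ι → ℕ) (i₀ : ι)

/-- The matrix of the form `∑ i, a i * v i * w i`. -/
def betaG (j j' : {j : ι // j ≠ i₀}) : ZMod ℓ :=
  (if j = j' then (a j.1 : ZMod ℓ) else 0) + a j.1 * a j'.1 * (a i₀ : ZMod ℓ)⁻¹

/-- The inverse matrix. -/
def gammaG (j j' : {j : ι // j ≠ i₀}) : ZMod ℓ :=
  (if j = j' then (a j.1 : ZMod ℓ)⁻¹ else 0) - (asum ℓ a)⁻¹

/-- The extension to all indices, for vectors with entries in `F ^ k × F ^ k`. -/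
def extP {k : ℕ} (z : {j : ι // j ≠ i₀} → (Fin k → ZMod ℓ) × (Fin k → ZMod ℓ)) (i : ι) :
    (Fin k → ZMod ℓ) × (Fin k → ZMod ℓ) :=
  (fun κ => ext a i₀ (fun j => (z j).1 κ) i, fun κ => ext a i₀ (fun j => (z j).2 κ) i)

end Data

end Pool.Agent.Helper54.PT
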