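import Pool.Agent.Helper54.TD.Defs

/-!
# The linear functional on polynomials with given moments
-/

set_option autoImplicit false

namespace Pool.Agent.Helper54.PT

open Polynomial Finset Module

theorem Lam_sum (N : ℕ → ℝ) {κ : Type} (s : Finset κ) (c : κ → ℝ) (p : κ → ℝ[X]) :
    Lam N (∑ j ∈ s, C (c j) * p j) = ∑ j ∈ s, c j * Lam N (p j) := by
  classical
  have hadd : ∀ p q : ℝ[X], Lam N (p + q) = Lam N p + Lam N q := by
    intro p q
    unfold Lam
    rw [Polynomial.sum_add_index p q _ (fun i => by simp) (fun i x y => by ring)]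
  have hsm : ∀ (a : ℝ) (p : ℝ[X]), Lam N (C a * p) = a * Lam N p := by
    intro a p
    unfold Lam
    rw [← Polynomial.smul_eq_C_mul, Polynomial.sum_smul_index _ _ _ (fun i => by simp),
      Polynomial.sum_def, Polynomial.sum_def, mul_sum]
    exact sum_congr rfl fun i _ => by ring
  induction s using Finset.induction_on with
  | empty => simp [Lam]
  | insert i s hi ih => rw [sum_insert hi, sum_insert hi, hadd, hsm, ih]

theorem Lam_X_pow (N : ℕ → ℝ) (k : ℕ) : Lam N (X ^ k) = N k := by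
  unfold Lam
  rw [← Polynomial.monomial_one_right_eq_X_pow, Polynomial.sum_monomial_index _ _ (by simp),
    one_mul]

theorem nsub_self (ℓ : ℕ) [Fact ℓ.Prime] (k : ℕ) : nsub ℓ k k = 1 := by
  unfold nsub
  rw [Nat.card_eq_one_iff_unique]
  refine ⟨⟨fun A A' => ?_⟩, ⟨⟨⊤, ?_⟩⟩⟩
  · have h : ∀ A : {A : Submodule (ZMod ℓ) (Fin k → ZMod ℓ) // finrank (ZMod ℓ) A = k},
        A.1 = ⊤ := fun A => Submodule.eq_top_of_finrank_eq (by
          rw [A.2, Module.finrank_fintype_fun_eq_card, Fintype.card_fin])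
    exact Subtype.ext ((h A).trans (h A').symm)
  · rw [finrank_top, Module.finrank_fintype_fun_eq_card, Fintype.card_fin]

/-- B7: the factorial moments, from B3 and B4. -/
theorem Lam_Pj_of {ℓ : ℕ} [Fact ℓ.Prime]
    (b3 : ∀ k : ℕ, NL ℓ k = ∑ m ∈ range (k + 1), nsub ℓ k m * gk ℓ m)
    (b4 : ∀ s k : ℕ, ((ℓ : ℝ) ^ s) ^ k = ∑ m ∈ range (k + 1), (nsub ℓ k m : ℝ) *
      ∏ i ∈ range m, ((ℓ : ℝ) ^ s - (ℓ : ℝ) ^ i)) (j : ℕ) :
    Lam (fun k => (NL ℓ k : ℝ)) (Pj ℓ j) = gk ℓ j := by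
  have hℓ : (1 : ℝ) < ℓ := by exact_mod_cast (Fact.out : ℓ.Prime).one_lt
  have hid : ∀ k : ℕ, (X : ℝ[X]) ^ k = ∑ m ∈ range (k + 1), C (nsub ℓ k m : ℝ) * Pj ℓ m := by
    intro k
    refine Polynomial.eq_of_infinite_eval_eq _ _ ?_
    refine Set.Infinite.mono ?_ (Set.infinite_range_of_injective
      (pow_right_injective₀ (by linarith) hℓ.ne' : Function.Injective fun s : ℕ => (ℓ : ℝ) ^ s))
    rintro _ ⟨s, rfl⟩
    simp only [Set.mem_ofPred_eq, Pj, eval_pow, eval_X, eval_finset_sum, eval_mul, eval_C,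
      eval_prod, eval_sub]
    exact b4 s k
  induction j using Nat.strong_induction_on with
  | _ k ih =>
    have h1 := congrArg (Lam (fun k => (NL ℓ k : ℝ))) (hid k)
    rw [Lam_X_pow, Lam_sum, b3 k, Nat.cast_sum, sum_range_succ, sum_range_succ, nsub_self,
      Nat.cast_one, one_mul, one_mul] at h1
    have h2 : ∑ m ∈ range k, ((nsub ℓ k m * gk ℓ m : ℕ) : ℝ) =
        ∑ m ∈ range k, (nsub ℓ k m : ℝ) * Lam (fun k => (NL ℓ k : ℝ)) (Pj ℓ m) := by
      refine sum_congr rfl fun m hm => ?_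
      rw [ih m (mem_range.1 hm), Nat.cast_mul]
    rw [h2] at h1
    exact (add_left_cancel h1).symm

end Pool.Agent.Helper54.PT
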