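import Pool.Agent.Helper54.TD.Class
import Pool.Agent.Helper54.TD.Lam
import Pool.Agent.Helper17.TD.B3
import Pool.Agent.Helper86.TD.B4
import Pool.Agent.Helper86.TD.B56
import Pool.Agent.Helper86.TD.E12
import Pool.Agent.Helper86.TD.E3
import Pool.Agent.Helper86.TD.E4
import Pool.Agent.Helper14.TD.E5

/-!
# The proportion of trivial formal Selmer groups
-/

set_option autoImplicit false

namespace Pool.Agent.Helper54.PT

open Polynomial Finset Filter Topology Module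

/-- B7: the factorial moments -/
theorem Lam_Pj {ℓ : ℕ} [Fact ℓ.Prime] (j : ℕ) :
    Lam (fun k => (NL ℓ k : ℝ)) (Pj ℓ j) = gk ℓ j :=
  Lam_Pj_of card_NL pow_eq_nsub j

section PropOdd

variable {ℓ : ℕ} [Fact ℓ.Prime] {σ : Type} [Fintype σ] [DecidableEq σ] {J : Type} [Fintype J]
  [DecidableEq J] {β γ : J → J → ZMod ℓ} {τ : (J → ZMod ℓ) →+ (J → Option σ → ZMod ℓ)}
  {H : (Option σ → J → ZMod ℓ) → (Option σ → J → ZMod ℓ) → (Option σ → ZMod ℓ) → Prop}

open Classical in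
/-- The proportion, `ℓ` odd. -/
theorem proportionT_odd (hℓ2 : ℓ ≠ 2) {q : ℕ} (X : PData ℓ σ) (hX : X.Inputs q) [Nonempty J]
    (hH : TDat β γ τ H) (hG : GenL γ τ)
    (hsub : ∀ D : Finset X.P, ∀ x ∈ GD X τ H D, ∀ y ∈ GD X τ H D, x + y ∈ GD X τ H D)
    (htor : ∀ (D : Finset X.P) (v : J → ZMod ℓ), tor X τ D v ∈ GD X τ H D)
    (ε : ℝ) (hε : 0 < ε) :
    ∀ᶠ n : ℕ in atTop, ((∏' i : ℕ, (1 + ((ℓ : ℝ) ^ (i + 1))⁻¹)⁻¹) - ε) * (X.sq n).card ≤
      ((X.sq n).filter fun D => ∀ x ∈ GD X τ H D, ∃ v, x = tor X τ D v).card := by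
  have hp : ℓ.Prime := Fact.out
  have hℓ1 : (1 : ℝ) < ℓ := by exact_mod_cast hp.one_lt
  set Cℓ : ℝ := ∏' i : ℕ, (1 + ((ℓ : ℝ) ^ (i + 1))⁻¹)⁻¹ with hCℓ
  obtain ⟨K, hK, hK2⟩ : ∃ K : ℕ, Odd K ∧ Cℓ - ε / 2 ≤
      Lam (fun k => (NL ℓ k : ℝ)) (fK (ℓ : ℝ) K) := by
    have h1 := (series_odd (ℓ : ℝ) hℓ1).eventually (lt_mem_nhds (show Cℓ - ε / 2 < Cℓ by linarith))
    obtain ⟨K₀, hK₀⟩ := eventually_atTop.1 h1
    refine ⟨2 * K₀ + 1, odd_two_mul_add_one K₀, ?_⟩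
    have h2 := (hK₀ (2 * K₀ + 1) (by omega)).le
    refine h2.trans (le_of_eq ?_)
    rw [fK_eq _ hℓ1, Lam_sum]
    refine sum_congr rfl fun j _ => ?_
    rw [Lam_Pj, gk_odd hℓ2]
    push_cast
    ring
  set S : ℝ := (ℓ : ℝ) ^ Fintype.card σ with hS
  have hS0 : 0 < S := by positivity
  have h1 : ∀ᶠ n : ℕ in atTop, ∀ κ₀ : σ → ZMod ℓ,
      (1 / S * Lam (fun k => (NL ℓ k : ℝ)) (fK (ℓ : ℝ) K) - ε / (2 * S)) * (X.sq n).card ≤
      ((X.sq n).filter fun D => (∀ r, kap X D (some r) = κ₀ r) ∧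
        ∀ x ∈ GD X τ H D, ∃ v, x = tor X τ D v).card :=
    eventually_all.2 fun κ₀ => class_bound X hX hH hG hsub htor κ₀ id tendsto_id _
      (fun m D _ _ s _ => fK_le _ hℓ1 K hK s) _ (by positivity)
  filter_upwards [h1] with n hn
  set N : ℝ := ((X.sq n).card : ℝ) with hN
  have hN0 : 0 ≤ N := Nat.cast_nonneg _
  set Z : (σ → ZMod ℓ) → Finset (Finset X.P) := fun κ₀ =>
    (X.sq n).filter fun D => (∀ r, kap X D (some r) = κ₀ r) ∧
        ∀ x ∈ GD X τ H D, ∃ v, x = tor X τ D v with hZ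
  have hdisj : (∑ κ₀, (Z κ₀).card) ≤
      ((X.sq n).filter fun D => ∀ x ∈ GD X τ H D, ∃ v, x = tor X τ D v).card := by
    rw [← card_biUnion]
    · apply card_le_card
      intro D hD
      obtain ⟨κ, _, hκ⟩ := mem_biUnion.1 hD
      exact mem_filter.2 ⟨(mem_filter.1 hκ).1, (mem_filter.1 hκ).2.2⟩
    · intro κ _ κ' _ hne'
      rw [Function.onFun, Finset.disjoint_left]
      intro D hD hD'
      apply hne'
      funext r
      rw [← (mem_filter.1 hD).2.1 r, ← (mem_filter.1 hD').2.1 r]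
  have h2 : (Fintype.card (σ → ZMod ℓ) : ℝ) *
      ((1 / S * Lam (fun k => (NL ℓ k : ℝ)) (fK (ℓ : ℝ) K) - ε / (2 * S)) * N) ≤
      ((X.sq n).filter fun D => ∀ x ∈ GD X τ H D, ∃ v, x = tor X τ D v).card := by
    calc (Fintype.card (σ → ZMod ℓ) : ℝ) *
      ((1 / S * Lam (fun k => (NL ℓ k : ℝ)) (fK (ℓ : ℝ) K) - ε / (2 * S)) * N) =
        (univ : Finset (σ → ZMod ℓ)).card •
          ((1 / S * Lam (fun k => (NL ℓ k : ℝ)) (fK (ℓ : ℝ) K) - ε / (2 * S)) * N) := by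
          rw [nsmul_eq_mul, card_univ]
      _ ≤ ∑ κ₀, ((Z κ₀).card : ℝ) := Finset.card_nsmul_le_sum _ _ _ fun κ₀ _ => hn κ₀
      _ ≤ _ := by exact_mod_cast hdisj
  rw [Fintype.card_fun, ZMod.card, Nat.cast_pow, ← hS] at h2
  have h3 : S * ((1 / S * Lam (fun k => (NL ℓ k : ℝ)) (fK (ℓ : ℝ) K) - ε / (2 * S)) * N) =
      (Lam (fun k => (NL ℓ k : ℝ)) (fK (ℓ : ℝ) K) - ε / 2) * N := by
    field_simp
  rw [h3] at h2
  refine le_trans (mul_le_mul_of_nonneg_right ?_ hN0) h2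
  linarith

end PropOdd

section PropTwo

variable {σ : Type} [Fintype σ] [DecidableEq σ] {J : Type} [Fintype J]
  [DecidableEq J] {β γ : J → J → ZMod 2} {τ : (J → ZMod 2) →+ (J → Option σ → ZMod 2)}
  {H : (Option σ → J → ZMod 2) → (Option σ → J → ZMod 2) → (Option σ → ZMod 2) → Prop}

open Classical in
/-- The proportion, `ℓ = 2`. -/
theorem proportionT_two {q : ℕ} (X : PData 2 σ) (hX : X.Inputs q) [Nonempty J]
    (hJ : Even (Fintype.card J)) (hH : TDat β γ τ H) (hG : GenL γ τ)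
    (hsub : ∀ D : Finset X.P, ∀ x ∈ GD X τ H D, ∀ y ∈ GD X τ H D, x + y ∈ GD X τ H D)
    (htor : ∀ (D : Finset X.P) (v : J → ZMod 2), tor X τ D v ∈ GD X τ H D)
    (c : (Option σ → ZMod 2) → ZMod 2) (r₀ : σ)
    (hflip : ∀ κ : Option σ → ZMod 2,
      c (Function.update κ (some r₀) (κ (some r₀) + 1)) = c κ + 1)
    (hpar : ∀ D : Finset X.P, ∃ s : ℕ, (GD X τ H D).card = 2 ^ s ∧
      (s : ZMod 2) = c (kap X D))
    (ε : ℝ) (hε : 0 < ε) :
    ∀ᶠ n : ℕ in atTop, (1 / 2 * (∏' i : ℕ, (1 - ((2 : ℝ) ^ (2 * i + 1))⁻¹)) - ε) *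
        (X.sq n).card ≤
      ((X.sq n).filter fun D => ∀ x ∈ GD X τ H D, ∃ v, x = tor X τ D v).card := by
  have : Fact (Nat.Prime 2) := ⟨Nat.prime_two⟩
  set C₂ : ℝ := ∏' i : ℕ, (1 - ((2 : ℝ) ^ (2 * i + 1))⁻¹) with hC₂
  obtain ⟨K, hK, hK2⟩ : ∃ K : ℕ, Odd K ∧ C₂ - ε ≤
      Lam (fun k => (NL 2 k : ℝ)) (fK 4 K) := by
    have h1 := series_two.eventually (lt_mem_nhds (show C₂ - ε < C₂ by linarith))
    obtain ⟨K₀, hK₀⟩ := eventually_atTop.1 h1
    refine ⟨2 * K₀ + 1, odd_two_mul_add_one K₀, ?_⟩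
    have h2 := (hK₀ (2 * K₀ + 1) (by omega)).le
    refine h2.trans (le_of_eq ?_)
    rw [fK_eq _ (by norm_num), Lam_sum]
    refine sum_congr rfl fun j _ => ?_
    rw [Lam_Pj4]
    intro i
    have h3 := Lam_Pj (ℓ := 2) i
    rw [gk_two] at h3
    simpa using h3
  set S : ℝ := (2 : ℝ) ^ Fintype.card σ with hS
  have hS0 : 0 < S := by positivity
  have h1 : ∀ e : ℕ, ∀ᶠ m : ℕ in atTop, ∀ κ₀ : σ → ZMod 2, c (a2_hat e κ₀) = 0 →
      (1 / S * Lam (fun k => (NL 2 k : ℝ)) (fK 4 K) - ε / S) * (X.sq (2 * m + e)).card ≤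
      ((X.sq (2 * m + e)).filter fun D => (∀ r, kap X D (some r) = κ₀ r) ∧
        ∀ x ∈ GD X τ H D, ∃ v, x = tor X τ D v).card := by
    intro e
    refine eventually_all.2 fun κ₀ => ?_
    by_cases hκ : c (a2_hat e κ₀) = 0
    · have h2 := class_bound X hX hH hG hsub htor κ₀ (fun m => 2 * m + e)
        (tendsto_atTop_mono (fun m => by change m ≤ 2 * m + e; omega) tendsto_id) (fK 4 K)
        (fun m D hD hκD s hs => ?_) (ε / S) (by positivity)
      · filter_upwards [h2] with m hm _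
        simpa using hm
      · obtain ⟨s', h3, h4⟩ := hpar D
        have h5 : s' = Fintype.card J + s := by
          rw [h3] at hs
          exact Nat.pow_right_injective le_rfl hs
        have h6 : kap X D = a2_hat e κ₀ := by
          rw [a2_kap X D (2 * m + e) hD κ₀ hκD]
          funext t
          cases t with
          | none =>
            change ((2 * m + e : ℕ) : ZMod 2) = (e : ZMod 2)
            rw [Nat.cast_add, Nat.cast_mul, ZMod.natCast_self, zero_mul, zero_add]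
          | some r => rfl
        rw [h6, hκ, ZMod.natCast_eq_zero_iff_even, h5] at h4
        have h7 : Even s := (Nat.even_add.1 h4).1 hJ
        obtain ⟨t, ht⟩ := h7
        have h8 : ((2 : ℕ) : ℝ) ^ s = 4 ^ t := by
          rw [ht, pow_add, ← mul_pow]
          norm_num
        rw [h8]
        refine (fK_le 4 (by norm_num) K hK t).trans (le_of_eq ?_)
        have h9 : t = 0 ↔ s = 0 := by omega
        simp only [h9]
    · exact Eventually.of_forall fun m h => absurd h hκ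
  obtain ⟨M₀, hM₀⟩ := eventually_atTop.1 (h1 0)
  obtain ⟨M₁, hM₁⟩ := eventually_atTop.1 (h1 1)
  filter_upwards [eventually_ge_atTop (2 * M₀ + 2 * M₁ + 2)] with n hn
  have hnκ : ∀ κ₀ : σ → ZMod 2, c (a2_hat n κ₀) = 0 →
      (1 / S * Lam (fun k => (NL 2 k : ℝ)) (fK 4 K) - ε / S) * (X.sq n).card ≤
      ((X.sq n).filter fun D => (∀ r, kap X D (some r) = κ₀ r) ∧
        ∀ x ∈ GD X τ H D, ∃ v, x = tor X τ D v).card := by
    intro κ₀ hκ
    have h2 : a2_hat n κ₀ = a2_hat (n % 2) κ₀ := by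
      funext t
      cases t with
      | none => 
        change (n : ZMod 2) = ((n % 2 : ℕ) : ZMod 2)
        simp
      | some r => rfl
    rw [h2] at hκ
    rcases Nat.mod_two_eq_zero_or_one n with h | h
    · rw [h] at hκ
      have h3 := hM₀ (n / 2) (by omega) κ₀ hκ
      have h4 : 2 * (n / 2) + 0 = n := by omega
      rw [h4] at h3
      exact h3
    · rw [h] at hκ
      have h3 := hM₁ (n / 2) (by omega) κ₀ hκ
      have h4 : 2 * (n / 2) + 1 = n := by omega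
      rw [h4] at h3
      exact h3
  set N : ℝ := ((X.sq n).card : ℝ) with hN
  have hN0 : 0 ≤ N := Nat.cast_nonneg _
  set E : Finset (σ → ZMod 2) := univ.filter fun κ : σ → ZMod 2 => c (a2_hat n κ) = 0
    with hE
  have hEc : 2 * (E.card : ℝ) = S := by
    have := a2_card_even n c r₀ hflip
    rw [hS]
    exact_mod_cast this
  set Z : (σ → ZMod 2) → Finset (Finset X.P) := fun κ₀ =>
    (X.sq n).filter fun D => (∀ r, kap X D (some r) = κ₀ r) ∧
        ∀ x ∈ GD X τ H D, ∃ v, x = tor X τ D v with hZ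
  have hdisj : (∑ κ₀ ∈ E, (Z κ₀).card) ≤
      ((X.sq n).filter fun D => ∀ x ∈ GD X τ H D, ∃ v, x = tor X τ D v).card := by
    rw [← card_biUnion]
    · apply card_le_card
      intro D hD
      obtain ⟨κ, _, hκ⟩ := mem_biUnion.1 hD
      exact mem_filter.2 ⟨(mem_filter.1 hκ).1, (mem_filter.1 hκ).2.2⟩
    · intro κ _ κ' _ hne'
      rw [Function.onFun, Finset.disjoint_left]
      intro D hD hD'
      apply hne'
      funext r
      rw [← (mem_filter.1 hD).2.1 r, ← (mem_filter.1 hD').2.1 r]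
  have h2 : (E.card : ℝ) *
      ((1 / S * Lam (fun k => (NL 2 k : ℝ)) (fK 4 K) - ε / S) * N) ≤
      ((X.sq n).filter fun D => ∀ x ∈ GD X τ H D, ∃ v, x = tor X τ D v).card := by
    calc (E.card : ℝ) *
      ((1 / S * Lam (fun k => (NL 2 k : ℝ)) (fK 4 K) - ε / S) * N) =
        E.card • ((1 / S * Lam (fun k => (NL 2 k : ℝ)) (fK 4 K) - ε / S) * N) := by
          rw [nsmul_eq_mul]
      _ ≤ ∑ κ₀ ∈ E, ((Z κ₀).card : ℝ) := Finset.card_nsmul_le_sum _ _ _ fun κ₀ hκ =>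
          hnκ κ₀ (mem_filter.1 hκ).2
      _ ≤ _ := by exact_mod_cast hdisj
  have e1 : (E.card : ℝ) = S / 2 := by linarith
  rw [e1] at h2
  have h3 : S / 2 * ((1 / S * Lam (fun k => (NL 2 k : ℝ)) (fK 4 K) - ε / S) * N) =
      (1 / 2 * Lam (fun k => (NL 2 k : ℝ)) (fK 4 K) - ε / 2) * N := by
    field_simp
  rw [h3] at h2
  refine le_trans (mul_le_mul_of_nonneg_right ?_ hN0) h2
  linarith

end PropTwo

end Pool.Agent.Helper54.PT
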