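import Pool.Agent.Helper54.PT.FinalG
import Pool.Agent.Helper54.TD.Prop
import Pool.Agent.Helper54.TD.D6
import Pool.Agent.Helper9.TD.D7
import Pool.Agent.Helper9.TD.D8

/-!
# Twists of superelliptic curves with arbitrary bad reduction: the exact constants
-/

set_option autoImplicit false

namespace Pool.Agent.Helper54.PT

open Polynomial Finset Filter Topology Module Pool.Agent.Helper47.BSD

theorem final_oddT {F : Type} [Field F] [Finite F] {ℓ : ℕ} (hℓ : ℓ.Prime) (hℓ2 : ℓ ≠ 2)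
    (hq : ℓ ∣ Nat.card F - 1) {ι : Type} [Fintype ι] [LinearOrder ι] (a : ι → ℕ)
    (ha : ∀ i, ¬ ℓ ∣ a i) (hs : ¬ ℓ ∣ ∑ i, a i) (e : ι → F[X]) (he : Function.Injective e)
    (hι : 2 ≤ Fintype.card ι)
    (hind : ∀ m : {p : ι × ι // p.1 < p.2} → ℕ, ℓ ∣ ∑ p, m p →
      (∃ f : F[X], ∏ p, (e p.1.1 - e p.1.2) ^ m p = f ^ ℓ) → ∀ p, ℓ ∣ m p)
    (ε : ℝ) (hε : 0 < ε) :
    ∀ᶠ n : ℕ in atTop, ((∏' i : ℕ, (1 + ((ℓ : ℝ) ^ (i + 1))⁻¹)⁻¹) - ε) * ((sqf e n).ncard : ℝ) ≤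
      (({D ∈ sqf e n | ∀ d ∈ selmerSet ℓ a (fun i => algebraMap F[X] (RatFunc F) (D * e i)),
        ∃ (c : ι → ℕ) (x : ι → RatFunc F), ∀ j, (d j : RatFunc F) =
          (∏ i, tt ℓ a (fun i => algebraMap F[X] (RatFunc F) (D * e i)) i j ^ c i) *
            x j ^ ℓ}).ncard : ℝ) := by
  classical
  have : Fact ℓ.Prime := ⟨hℓ⟩
  obtain ⟨lg, hlg⟩ := exists_isLog (F := F) (ℓ := ℓ) hq
  have hm : lg (-1) = 0 :=
    (hlg.2.1 (-1) (neg_ne_zero.2 one_ne_zero)).2 ⟨-1, (hℓ.odd_of_ne_two hℓ2).neg_one_pow⟩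
  have hrec : ∀ P Q : Prm F, P ≠ Q → sy lg Q.1 P.1 = sy lg P.1 Q.1 := fun P Q h =>
    sy_comm hlg hm P.2.1 P.2.2 Q.2.1 Q.2.2 fun h' => h (Subtype.ext h')
  obtain ⟨σ, _, _, R, hS⟩ := exists_setupG (e := e) fun i j hij h => hij (he h)
  have hne : Nonempty ι := by
    by_contra h
    rw [not_nonempty_iff] at h
    exact hs (by simp)
  obtain ⟨i₀⟩ := hne
  obtain ⟨M, hM, hSM⟩ := exists_MG' hq hlg hm hrec ha hs hS i₀
  have hne' : Nonempty {j : ι // j ≠ i₀} := by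
    rw [← Fintype.card_pos_iff, Fintype.card_subtype_compl, Fintype.card_subtype_eq]
    omega
  have hgen : GenL (gammaG a i₀) (tauG a i₀ (AG R lg e)) :=
    genL_tauG ha hs (AG_symm hlg hm R e) (indA_of hlg hm hS hind)
  have htd : TDat (betaG a i₀) (gammaG a i₀) (tauG a i₀ (AG R lg e))
      (HMG i₀ (fun r => ((R r).1.natDegree : ZMod ℓ)) (fun r r' => sy lg (R r).1 (R r').1) M) :=
    tdat_HMG ha hs (AG_symm hlg hm R e) hM fun c hc b y κ _ => by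
      have h2 : (2 : ZMod ℓ) ≠ 0 := by
        have h3 : ((2 : ℕ) : ZMod ℓ) ≠ 0 := by
          rw [Ne, ZMod.natCast_eq_zero_iff]
          exact fun h => hℓ2 ((Nat.prime_dvd_prime_iff_eq hℓ Nat.prime_two).1 h)
        exact_mod_cast h3
      have h4 : c = 0 := by
        rw [← two_mul] at hc
        exact (mul_eq_zero.1 hc).resolve_left h2
      rw [h4, zero_mul, zero_mul]
  have key := proportionT_odd hℓ2 (pd lg hrec R) (pd_inputs hrec R hlg hℓ2 hq hS.inj) htd hgen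
    (fun D => add_mem_GDG _ D) (fun D v => tor_mem_GDG hM _ D v) ε hε
  filter_upwards [key] with n hn
  have hbij := sqf_bijG (lg := lg) hrec hS n
  have hcard : (sqf e n).ncard = ((pd lg hrec R).sq n).card := by
    rw [← hbij.image_eq, hbij.injOn.ncard_image, Set.ncard_coe_finset]
  obtain ⟨T, hT1, hT2, hT3⟩ : ∃ T : Finset (Finset (pd lg hrec R).P), T ⊆ (pd lg hrec R).sq n ∧
      (∀ D ∈ T, ∀ x ∈ GD (pd lg hrec R) (tauG a i₀ (AG R lg e))
        (HMG i₀ (fun r => ((R r).1.natDegree : ZMod ℓ))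
          (fun r r' => sy lg (R r).1 (R r').1) M) D,
          ∃ v, x = tor (pd lg hrec R) (tauG a i₀ (AG R lg e)) D v) ∧
      ((∏' i : ℕ, (1 + ((ℓ : ℝ) ^ (i + 1))⁻¹)⁻¹) - ε) * ((pd lg hrec R).sq n).card ≤ T.card :=
    ⟨_, fun D hD => (@mem_filter _ _ (_) _ _).1 hD |>.1,
      fun D hD => (@mem_filter _ _ (_) _ _).1 hD |>.2, hn⟩
  rw [hcard]
  refine hT3.trans ?_
  have hfin : (sqf e n).Finite := by
    rw [← hbij.image_eq]
    exact (Finset.finite_toSet _).image _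
  rw [← Set.ncard_coe_finset, ← Set.InjOn.ncard_image (f := fun D : Finset (pd lg hrec R).P =>
    ∏ P ∈ und lg hrec R D, P.1) (hbij.injOn.mono fun D hD => hT1 (mem_coe.1 hD))]
  refine Nat.cast_le.2 (Set.ncard_le_ncard ?_ (hfin.subset fun _ h => h.1))
  rintro _ ⟨D, hD, rfl⟩
  refine ⟨hbij.mapsTo (hT1 (mem_coe.1 hD)), fun d hd => ?_⟩
  obtain ⟨v₀, hv₀⟩ := hT2 D (mem_coe.1 hD) _
    (selG_mem_GD hq hlg hm hrec ha hs hS i₀ M hSM D d hd)
  exact selG_of_tor hq hlg hm hrec ha hs hS i₀ D d hd v₀ hv₀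

theorem final_evenT {F : Type} [Field F] [Finite F] (hq : 4 ∣ Nat.card F - 1)
    {ι : Type} [Fintype ι] [LinearOrder ι] (a : ι → ℕ) (hι : 3 ≤ Fintype.card ι)
    (ha : ∀ i, ¬ 2 ∣ a i) (hs : ¬ 2 ∣ ∑ i, a i) (e : ι → F[X]) (he : Function.Injective e)
    (hind : ∀ m : {p : ι × ι // p.1 < p.2} → ℕ, 2 ∣ ∑ p, m p →
      (∃ f : F[X], ∏ p, (e p.1.1 - e p.1.2) ^ m p = f ^ 2) → ∀ p, 2 ∣ m p)
    (hP : ∃ (P : F[X]) (i j : ι), Irreducible P ∧ i ≠ j ∧ P ∣ e i - e j ∧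
      ∀ m n, m ≠ n → s(m, n) ≠ s(i, j) → ¬ P ∣ e m - e n)
    (ε : ℝ) (hε : 0 < ε) :
    ∀ᶠ n : ℕ in atTop, (1 / 2 * (∏' i : ℕ, (1 - ((2 : ℝ) ^ (2 * i + 1))⁻¹)) - ε) * ((sqf e n).ncard : ℝ) ≤
      (({D ∈ sqf e n | ∀ d ∈ selmerSet 2 a (fun i => algebraMap F[X] (RatFunc F) (D * e i)),
        ∃ (c : ι → ℕ) (x : ι → RatFunc F), ∀ j, (d j : RatFunc F) =
          (∏ i, tt 2 a (fun i => algebraMap F[X] (RatFunc F) (D * e i)) i j ^ c i) *
            x j ^ 2}).ncard : ℝ) := by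
  classical
  have h2 : 2 ≤ Nat.card F := Finite.one_lt_card
  have hq2 : 2 ∣ Nat.card F - 1 := (Dvd.intro 2 rfl : 2 ∣ 4).trans hq
  have hq5 : 5 ≤ Nat.card F := by
    obtain ⟨c, hc⟩ := hq
    omega
  have hchar : ringChar F ≠ 2 := by
    intro h
    have := Fintype.ofFinite F
    have h3 := FiniteField.even_card_of_char_two h
    rw [← Nat.card_eq_fintype_card] at h3
    omega
  obtain ⟨lg, hlg⟩ := exists_isLog (F := F) (ℓ := 2) hq2
  have hm : lg (-1) = 0 := by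
    have := Fintype.ofFinite F
    rw [hlg.2.1 (-1) (neg_ne_zero.2 one_ne_zero)]
    have h3 : IsSquare (-1 : F) := by
      rw [FiniteField.isSquare_neg_one_iff]
      rw [Nat.card_eq_fintype_card] at hq h2
      omega
    obtain ⟨y, hy⟩ := h3
    exact ⟨y, by rw [hy, sq]⟩
  have hrec : ∀ P Q : Prm F, P ≠ Q → sy lg Q.1 P.1 = sy lg P.1 Q.1 := fun P Q h =>
    sy_comm hlg hm P.2.1 P.2.2 Q.2.1 Q.2.2 fun h' => h (Subtype.ext h')
  obtain ⟨σ, _, _, R, hS⟩ := exists_setupG (e := e) fun i j hij h => hij (he h)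
  have hne : Nonempty ι := Fintype.card_pos_iff.1 (by omega)
  obtain ⟨i₀⟩ := hne
  have hJc : Fintype.card {j : ι // j ≠ i₀} = Fintype.card ι - 1 := by
    simp [Fintype.card_subtype_compl]
  have hJ : Even (Fintype.card {j : ι // j ≠ i₀}) := by
    have h4 : Odd (Fintype.card ι) := by
      rw [Nat.not_even_iff_odd.symm, even_iff_two_dvd]
      intro h5
      refine hs ?_
      have h6 : (((∑ i, a i : ℕ)) : ZMod 2) = ((Fintype.card ι : ℕ) : ZMod 2) := by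
        rw [Nat.cast_sum, Fintype.card_eq_sum_ones, Nat.cast_sum]
        refine sum_congr rfl fun i _ => ?_
        have h7 : a i % 2 = 1 := by
          have := ha i
          omega
        have h8 : ((a i : ℕ) : ZMod 2) = ((a i % 2 : ℕ) : ZMod 2) := by simp
        rw [h8, h7]
      rw [(ZMod.natCast_eq_zero_iff _ _).2 h5] at h6
      exact (ZMod.natCast_eq_zero_iff _ _).1 h6
    rw [hJc]
    exact Nat.Odd.sub_odd h4 odd_one
  obtain ⟨P, i₁, i₂, hP1, hi, hP2, hP3⟩ := hP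
  have hP0 : P.leadingCoeff ≠ 0 := leadingCoeff_ne_zero.2 hP1.ne_zero
  have hu : IsUnit (C P.leadingCoeff⁻¹) := isUnit_C.2 (inv_ne_zero hP0).isUnit
  have has : Associated P (P * C P.leadingCoeff⁻¹) := (associated_mul_unit_right P _ hu)
  let P' : Prm F := ⟨P * C P.leadingCoeff⁻¹, monic_mul_leadingCoeff_inv hP1.ne_zero,
    has.irreducible hP1⟩
  obtain ⟨r₀, hr₀⟩ := (hS.mem P').2 ⟨i₁, i₂, hi, has.symm.dvd.trans hP2⟩
  obtain ⟨M, hM, hSM, hMq, hMr⟩ := exists_MG2' (a := a) hq2 hlg hm hrec ha hs hS i₀ r₀ hi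
    (by rw [hr₀]; exact has.symm.dvd.trans hP2)
    (fun m n hmn h h' => hP3 m n hmn h (by rw [hr₀] at h'; exact has.dvd.trans h'))
  have hne' : Nonempty {j : ι // j ≠ i₀} := by
    rw [← Fintype.card_pos_iff, hJc]
    omega
  have hgen : GenL (gammaG a i₀) (tauG a i₀ (AG R lg e)) :=
    genL_tauG ha hs (AG_symm hlg hm R e) (indA_of hlg hm hS hind)
  set X := pd lg hrec R with hX
  set dR : σ → ZMod 2 := fun r => ((R r).1.natDegree : ZMod 2) with hdR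
  set sR : σ → σ → ZMod 2 := fun r r' => sy lg (R r).1 (R r').1 with hsR
  -- the parity function
  obtain ⟨c₀, hc₀⟩ : ∃ c₀ : ZMod 2, ∀ D : Finset X.P, ∃ s : ℕ,
      (GD X (tauG a i₀ (AG R lg e)) (HMG i₀ dR sR M) D).card = 2 ^ s ∧
      (s : ZMod 2) = c₀ + ∑ t, (finrank (ZMod 2)
        (M t (kap X D t) ⊓ M t 0 : Submodule (ZMod 2) (LSG 2 i₀)) : ZMod 2) := by
    refine ⟨((Nat.log 2 (univ.filter fun b : Option σ → {j : ι // j ≠ i₀} → ZMod 2 =>
      HMG i₀ dR sR M b 0 0).card : ℕ) : ZMod 2), fun D => ?_⟩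
    obtain ⟨s, s', h3, h4, h5⟩ := parity_HMG hM hMq ha hs hJ (AG_symm hlg hm R e) X D
    refine ⟨s, h3, ?_⟩
    rw [h5, h4, Nat.log_pow one_lt_two]
  have htd : TDat (betaG a i₀) (gammaG a i₀) (tauG a i₀ (AG R lg e)) (HMG i₀ dR sR M) :=
    tdat_HMG ha hs (AG_symm hlg hm R e) hM fun c hc b y κ h => by
      rw [quad_HMG ha hs (AG_symm hlg hm R e) hM hMq b y κ h]
  have key := proportionT_two X (pd_inputs_two hrec R hlg (by omega)
      fun G g β hne d hd k hk => Helper62.TW.pd_prime_sum2 stS6 stS7 hrec R hlg hchar hS.inj G g β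
        hne d hd k hk) hJ htd hgen
    (fun D => add_mem_GDG X D) (fun D v => tor_mem_GDG hM X D v)
    (fun κ => c₀ + ∑ t, (finrank (ZMod 2)
      (M t (κ t) ⊓ M t 0 : Submodule (ZMod 2) (LSG 2 i₀)) : ZMod 2))
    r₀ (fun κ => ?_) hc₀ ε hε
  · filter_upwards [key] with n hn
    have hbij := sqf_bijG (lg := lg) hrec hS n
    have hcard : (sqf e n).ncard = (X.sq n).card := by
      rw [← hbij.image_eq, hbij.injOn.ncard_image, Set.ncard_coe_finset]
    obtain ⟨T, hT1, hT2, hT3⟩ : ∃ T : Finset (Finset X.P), T ⊆ X.sq n ∧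
        (∀ D ∈ T, ∀ x ∈ GD X (tauG a i₀ (AG R lg e)) (HMG i₀ dR sR M) D,
          ∃ v, x = tor X (tauG a i₀ (AG R lg e)) D v) ∧
        (1 / 2 * (∏' i : ℕ, (1 - ((2 : ℝ) ^ (2 * i + 1))⁻¹)) - ε) * (X.sq n).card ≤ T.card :=
      ⟨_, fun D hD => (@mem_filter _ _ (_) _ _).1 hD |>.1,
        fun D hD => (@mem_filter _ _ (_) _ _).1 hD |>.2, hn⟩
    rw [hcard]
    refine hT3.trans ?_
    have hfin : (sqf e n).Finite := by
      rw [← hbij.image_eq]
      exact (Finset.finite_toSet _).image _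
    rw [← Set.ncard_coe_finset, ← Set.InjOn.ncard_image (f := fun D : Finset X.P =>
      ∏ P ∈ und lg hrec R D, P.1) (hbij.injOn.mono fun D hD => hT1 (mem_coe.1 hD))]
    refine Nat.cast_le.2 (Set.ncard_le_ncard ?_ (hfin.subset fun _ h => h.1))
    rintro _ ⟨D, hD, rfl⟩
    refine ⟨hbij.mapsTo (hT1 (mem_coe.1 hD)), fun d hd => ?_⟩
    obtain ⟨v₀, hv₀⟩ := hT2 D (mem_coe.1 hD) _
      (selG_mem_GD hq2 hlg hm hrec ha hs hS i₀ M hSM D d hd)
    exact selG_of_tor hq2 hlg hm hrec ha hs hS i₀ D d hd v₀ hv₀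
  · have h3 : ∀ κ : Option σ → ZMod 2, ∑ t, (finrank (ZMod 2)
        (M t (κ t) ⊓ M t 0 : Submodule (ZMod 2) (LSG 2 i₀)) : ZMod 2) =
          (finrank (ZMod 2) (M (some r₀) (κ (some r₀)) ⊓ M (some r₀) 0 :
            Submodule (ZMod 2) (LSG 2 i₀)) : ZMod 2) + ∑ t ∈ univ.erase (some r₀),
              (finrank (ZMod 2) (M t (κ t) ⊓ M t 0 : Submodule (ZMod 2) (LSG 2 i₀)) : ZMod 2) :=
      fun κ => (add_sum_erase _ _ (mem_univ _)).symm
    have h4 : ∀ x : ZMod 2, (finrank (ZMod 2) (M (some r₀) x ⊓ M (some r₀) 0 :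
            Submodule (ZMod 2) (LSG 2 i₀)) : ZMod 2) = x := by
      have h5 : ((finrank (ZMod 2) (M (some r₀) 0 ⊓ M (some r₀) 0 :
          Submodule (ZMod 2) (LSG 2 i₀)) : ℕ) : ZMod 2) = 0 := by
        rw [inf_idem, hM.dim]
        exact (ZMod.natCast_eq_zero_iff_even).2 hJ
      have h6 : ((finrank (ZMod 2) (M (some r₀) 1 ⊓ M (some r₀) 0 :
          Submodule (ZMod 2) (LSG 2 i₀)) : ℕ) : ZMod 2) = 1 := by
        rw [inf_comm]
        have h7 : ((Fintype.card {j : ι // j ≠ i₀} : ℕ) : ZMod 2) = 0 :=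
          (ZMod.natCast_eq_zero_iff_even).2 hJ
        rw [← hMr, Nat.cast_add, Nat.cast_one] at h7
        have h8 : ∀ y : ZMod 2, y + 1 = 0 → y = 1 := by decide
        exact h8 _ h7
      intro x
      have hx : x = 0 ∨ x = 1 := by
        revert x
        decide
      rcases hx with rfl | rfl
      · exact h5
      · exact h6
    rw [h3, h3 κ, h4, h4, Function.update_self]
    rw [sum_congr rfl fun t ht => by rw [Function.update_of_ne (ne_of_mem_erase ht)]]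
    ring

end Pool.Agent.Helper54.PT
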